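import Mathlib
import Pool.Agent.Results.MP_70e04f_ag.Composition
import Pool.Agent.W71.NN.Pos

set_option autoImplicit false

/-!
# Strong Nagata for the classes composed of groups of points and of small multiplicities

General points of the complex projective plane, `(d; w) = d L - ∑ w i E i`. For the vectors `w` below every
curve `C` of class `(d; w)`, irreducible or not and of any degree `d`, has `C² ≥ g - 1` and `C² > 0`, where
`g` is its arithmetic genus. The vectors are the unions of

* (1) `r ≥ 46` fine groups, the numbers of conditions of which lie between those of the multiplicities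
  `m` and `m + s`, where `Base r m s` holds (for instance `s = 1`, `r ≥ 96`), and of any number of simple points;
* (2) any number of fine groups with numbers of conditions between those of the multiplicities `M` and
  `M + 1`, of any number of points with arbitrary multiplicities `≤ h`, where `h (h + 1) ≤ 2 (M + 1)` and
  `25000 (h + 1) ^ 3 ≤ M (M + 1)`, and of at least `M (M + 1) / 2` simple points (or of any number of them, if the small multiplicities impose at least
  `(M + 1) ^ 3` conditions and `3 h (h + 1) ≤ 2 (M + 1)`);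
* (3) fine groups with few levels, points with arbitrary multiplicities `≤ h`, and any number of simple
  points, if the number of conditions is large.

A group is fine if it is non-special in the two degrees next to its critical one, or if its multiplicities lie
in a short interval and the number of its points is one of the known cases; for instance one point, or
`k ≥ 96` points with multiplicities `a` or `a + 1`.
-/

namespace Pool.Agent.Results.MP_b180eb_ag.ComposedClasses

open MvPolynomial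
open Pool.Agent.Results.MP_70e04f_ag.Composition (forms Expected NonSpecial EveryDegree conditions group
  size Base Fine)

/-- The self-intersection of the class `(d; w)`. -/
def selfInt {n : ℕ} (d : ℕ) (w : Fin n → ℕ) : ℤ := (d : ℤ) ^ 2 - ∑ i, (w i : ℤ) ^ 2

/-- The intersection number of the class `(d; w)` with the canonical class `(-3; -1, …, -1)`. -/
def canon {n : ℕ} (d : ℕ) (w : Fin n → ℕ) : ℤ := ∑ i, (w i : ℤ) - 3 * d

/-- The arithmetic genus `1 + (C² + C · K) / 2`. -/
def arithGenus {n : ℕ} (d : ℕ) (w : Fin n → ℕ) : ℚ := 1 + ((selfInt d w : ℚ) + (canon d w : ℚ)) / 2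

/-- For points `P` of a nonempty open set, every curve `C` (given by a form `G`) of class `(d; w)`, of any
degree `d`, has `C² ≥ g - 1` and `C² > 0`. -/
def StrongNagata {n : ℕ} (w : Fin n → ℕ) : Prop :=
  ∃ F : MvPolynomial (Fin n × Fin 2) ℂ, F ≠ 0 ∧
    ∀ P : Fin n → Fin 2 → ℂ, eval (fun ij : Fin n × Fin 2 => P ij.1 ij.2) F ≠ 0 →
      ∀ (d : ℕ) (G : MvPolynomial (Fin 3) ℂ), G ≠ 0 → G ∈ forms P d w →
        arithGenus d w - 1 ≤ (selfInt d w : ℚ) ∧ 0 < selfInt d w

theorem strong_of {n : ℕ} {w : Fin n → ℕ} (h : EveryDegree w)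
    (h9 : 9 * ∑ i, w i ^ 2 < (∑ i, w i) ^ 2) : StrongNagata w := by
  obtain ⟨F, hF, hF'⟩ := h
  refine ⟨F, hF, fun P hP d G hG hGm => ?_⟩
  have h1 : (Module.finrank ℂ ↥(forms P d w) : ℤ) =
      max 0 (((d + 2).choose 2 : ℤ) - ∑ i, ((w i + 1).choose 2 : ℤ)) := hF' P hP d
  have hfd : FiniteDimensional ℂ ↥(forms P d w) := by
    have : FiniteDimensional ℂ ↥(MvPolynomial.homogeneousSubmodule (Fin 3) ℂ d) :=
      Module.Finite.iff_fg.2 (MvPolynomial.homogeneousSubmodule_fg _ _ d)
    exact Submodule.finiteDimensional_of_le (inf_le_left : forms P d w ≤ _)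
  have hpos : 0 < Module.finrank ℂ ↥(forms P d w) := by
    rw [Module.finrank_pos_iff_exists_ne_zero]
    exact ⟨⟨G, hGm⟩, fun h0 => hG (congrArg Subtype.val h0)⟩
  have e : ∑ i, ((w i + 1).choose 2 : ℤ) = ((∑ i, (w i + 1).choose 2 : ℕ) : ℤ) := by
    push_cast
    rfl
  rw [e] at h1
  have h2 : ∑ i, (w i + 1).choose 2 < (d + 2).choose 2 := by omega
  obtain ⟨h3, h4⟩ := Pool.Agent.W71.NN.self_pos h9 h2
  refine ⟨?_, h4⟩
  unfold arithGenus
  have h5 : (canon d w : ℤ) ≤ selfInt d w := h3
  have h6 : ((canon d w : ℤ) : ℚ) ≤ ((selfInt d w : ℤ) : ℚ) := by exact_mod_cast h5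
  linarith

theorem conditions_append {n k : ℕ} (w : Fin n → ℕ) (u : Fin k → ℕ) :
    conditions (Fin.append w u) = conditions w + conditions u := by
  unfold conditions
  rw [Fin.sum_univ_add]
  simp

theorem append_le {n k K : ℕ} {w : Fin n → ℕ} {u : Fin k → ℕ} (hw : ∀ i, w i ≤ K)
    (hu : ∀ i, u i ≤ K) (i : Fin (n + k)) : Fin.append w u i ≤ K := by
  refine Fin.addCases (fun i => ?_) (fun i => ?_) i
  · rw [Fin.append_left]
    exact hw i
  · rw [Fin.append_right]
    exact hu i

theorem le_of_group {n r K : ℕ} {w : Fin n → ℕ} {g : Fin n → Fin r}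
    (h : ∀ j, conditions (group w g j) ≤ (K + 1).choose 2) (i : Fin n) : w i ≤ K := by
  refine Pool.Agent.W71.NN.le_of_co ?_ (h (g i))
  have h1 := Finset.single_le_sum (f := fun l => (group w g (g i) l + 1).choose 2)
    (fun _ _ => Nat.zero_le _) (Finset.mem_univ i)
  have h2 : group w g (g i) i = w i := by
    unfold group
    exact if_pos rfl
  simp only [h2] at h1
  exact h1

theorem conditions_groups {n r c : ℕ} {w : Fin n → ℕ} {g : Fin n → Fin r}
    (h : ∀ j, c ≤ conditions (group w g j)) : r * c ≤ conditions w := by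
  have h1 := Pool.Agent.Results.MP_70e04f_ag.Composition.sum_co_grp w g
  rw [← h1]
  have h2 := Finset.card_nsmul_le_sum Finset.univ
    (fun j => Pool.Agent.TH545.SD.co (Pool.Agent.Results.MP_70e04f_ag.Composition.grp w g j)) c
    fun j _ => by
      rw [Pool.Agent.Results.MP_70e04f_ag.Composition.co_grp]
      exact h j
  rwa [Finset.card_univ, Fintype.card_fin, smul_eq_mul] at h2

theorem two_choose (x : ℕ) : (2 : ℤ) * ((x + 1).choose 2 : ℕ) = (x : ℤ) ^ 2 + x := by
  have h3 : (x + 1).choose 2 * 2 = (x + 1) * x := by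
    rw [Nat.choose_two_right]
    simpa using Nat.div_two_mul_two_of_even (Nat.even_mul_pred_self (x + 1))
  have h4 : (((x + 1).choose 2 : ℕ) : ℤ) * 2 = (x + 1) * x := by exact_mod_cast h3
  linarith

/-- The sum over a group. -/
theorem sum_group_eq {n r : ℕ} (f : Fin n → ℤ) (g : Fin n → Fin r) :
    ∑ j, ∑ i, (if g i = j then f i else 0) = ∑ i, f i := by
  rw [Finset.sum_comm]
  refine Finset.sum_congr rfl fun i _ => ?_
  rw [Finset.sum_ite_eq]
  simp

/-- Grouped vectors satisfy `9 ∑ w ^ 2 < (∑ w) ^ 2`. -/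
theorem grouped_ineq {n r m s : ℕ} (p : ℕ) (w : Fin n → ℕ) (g : Fin n → Fin r) (hm : 1 ≤ m)
    (hB : Base r m s) (hr : 46 ≤ r)
    (hc : ∀ j, (m + 1).choose 2 ≤ conditions (group w g j) ∧
      conditions (group w g j) ≤ (m + s + 1).choose 2) :
    9 * ∑ i, ((Fin.append w (fun _ : Fin p => 1) : Fin (n + p) → ℕ) i : ℤ) ^ 2 <
      (∑ i, ((Fin.append w (fun _ : Fin p => 1) : Fin (n + p) → ℕ) i : ℤ)) ^ 2 := by
  have hm' : (1 : ℤ) ≤ m := by exact_mod_cast hm
  have hs' : (0 : ℤ) ≤ s := by positivity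
  have hr' : (46 : ℤ) ≤ r := by exact_mod_cast hr
  -- the sums over the groups
  have key : ∀ j, (m : ℤ) ≤ ∑ i, (if g i = j then (w i : ℤ) else 0) ∧
      ∑ i, (if g i = j then (w i : ℤ) ^ 2 else 0) ≤ (m + s : ℤ) ^ 2 + s := by
    intro j
    obtain ⟨h1, h2⟩ := hc j
    have e1 : 2 * ((conditions (group w g j) : ℕ) : ℤ) =
        ∑ i, (if g i = j then (w i : ℤ) ^ 2 else 0) + ∑ i, (if g i = j then (w i : ℤ) else 0) := by
      unfold conditions group
      push_cast
      rw [Finset.mul_sum, ← Finset.sum_add_distrib]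
      refine Finset.sum_congr rfl fun i _ => ?_
      by_cases hi : g i = j
      · simp only [hi, if_true]
        exact two_choose (w i)
      · simp [hi]
    have e2 := two_choose m
    have e3 := two_choose (m + s)
    have h1' : (((m + 1).choose 2 : ℕ) : ℤ) ≤ ((conditions (group w g j) : ℕ) : ℤ) := by
      exact_mod_cast h1
    have h2' : ((conditions (group w g j) : ℕ) : ℤ) ≤ (((m + s + 1).choose 2 : ℕ) : ℤ) := by
      exact_mod_cast h2
    push_cast at e3
    have hq : ∑ i, (if g i = j then (w i : ℤ) ^ 2 else 0) ≤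
        (∑ i, (if g i = j then (w i : ℤ) else 0)) ^ 2 := by
      have h3 : ∀ i ∈ (Finset.univ : Finset (Fin n)), (0 : ℤ) ≤ (if g i = j then (w i : ℤ) else 0) := by
        intro i _
        split_ifs <;> positivity
      have h4 := Finset.sum_sq_le_sq_sum_of_nonneg h3
      refine le_trans (le_of_eq ?_) h4
      refine Finset.sum_congr rfl fun i _ => ?_
      split_ifs <;> simp
    have hS0 : 0 ≤ ∑ i, (if g i = j then (w i : ℤ) else 0) :=
      Finset.sum_nonneg fun i _ => by split_ifs <;> positivity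
    have hmS : (m : ℤ) ≤ ∑ i, (if g i = j then (w i : ℤ) else 0) := by
      by_contra hcon
      nlinarith
    exact ⟨hmS, by nlinarith⟩
  have hS : (r : ℤ) * m ≤ ∑ i, (w i : ℤ) := by
    rw [← sum_group_eq (fun i => (w i : ℤ)) g]
    have h1 : ∑ _j : Fin r, (m : ℤ) ≤ ∑ j, ∑ i, (if g i = j then (w i : ℤ) else 0) :=
      Finset.sum_le_sum fun j _ => (key j).1
    simpa using h1
  have hQ : ∑ i, (w i : ℤ) ^ 2 ≤ r * ((m + s : ℤ) ^ 2 + s) := by
    rw [← sum_group_eq (fun i => (w i : ℤ) ^ 2) g]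
    have h1 : ∑ j, ∑ i, (if g i = j then (w i : ℤ) ^ 2 else 0) ≤
        ∑ _j : Fin r, ((m + s : ℤ) ^ 2 + s) := Finset.sum_le_sum fun j _ => (key j).2
    simpa using h1
  -- the numerical inequality
  have hnum : 9 * ((m + s : ℤ) ^ 2 + s) < r * (m : ℤ) ^ 2 := by
    rcases hB with ⟨h1, -⟩ | ⟨h1, -⟩ | ⟨h1, -⟩
    · have h2 : (s : ℤ) ≤ 1 := by exact_mod_cast h1
      nlinarith
    · subst h1
      push_cast
      nlinarith
    · have h2 : (1000 * ((s : ℝ) + 1)) ^ 2 ≤ r := by
        have h3 := pow_le_pow_left₀ (by positivity) h1 2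
        rwa [Real.sq_sqrt (by positivity)] at h3
      have h3 : (1000000 : ℤ) * ((s : ℤ) + 1) ^ 2 ≤ r := by
        have h4 : (1000000 : ℝ) * ((s : ℝ) + 1) ^ 2 ≤ r := by linarith
        exact_mod_cast h4
      have h4 : (m + s : ℤ) ≤ m * (s + 1) := by nlinarith
      have h5 : (m + s : ℤ) ^ 2 ≤ (m * (s + 1)) ^ 2 := pow_le_pow_left₀ (by positivity) h4 2
      have h6 : (m * (s + 1) : ℤ) ^ 2 = (m : ℤ) ^ 2 * (s + 1) ^ 2 := by ring
      have h7 : (1 : ℤ) ≤ (m : ℤ) ^ 2 := by nlinarith
      have h8 : (s : ℤ) ≤ (m : ℤ) ^ 2 * (s + 1) ^ 2 := by nlinarith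
      have h9 : (1000000 : ℤ) * ((s : ℤ) + 1) ^ 2 * (m : ℤ) ^ 2 ≤ r * (m : ℤ) ^ 2 :=
        mul_le_mul_of_nonneg_right h3 (by positivity)
      nlinarith
  -- the whole vector
  rw [Fin.sum_univ_add, Fin.sum_univ_add]
  simp only [Fin.append_left, Fin.append_right, Nat.cast_one, one_pow, Finset.sum_const,
    Finset.card_univ, Fintype.card_fin, nsmul_eq_mul, mul_one]
  have hp : (0 : ℤ) ≤ p := by positivity
  have hrm : (46 : ℤ) ≤ (r : ℤ) * m := by nlinarith
  have h1 : ((r : ℤ) * m) ^ 2 ≤ (∑ i, (w i : ℤ)) ^ 2 := pow_le_pow_left₀ (by positivity) hS 2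
  have h2 : 9 * ∑ i, (w i : ℤ) ^ 2 < ((r : ℤ) * m) ^ 2 := by
    have h3 : (r : ℤ) * (9 * ((m + s : ℤ) ^ 2 + s)) < r * (r * (m : ℤ) ^ 2) :=
      mul_lt_mul_of_pos_left hnum (by linarith)
    nlinarith
  nlinarith

theorem result :
    (∀ (n r m s p : ℕ) (w : Fin n → ℕ) (g : Fin n → Fin r), 1 ≤ m → Base r m s → 46 ≤ r →
      (∀ j, Fine w g j) →
      (∀ j, (m + 1).choose 2 ≤ conditions (group w g j) ∧
        conditions (group w g j) ≤ (m + s + 1).choose 2) →
      StrongNagata (Fin.append w fun _ : Fin p => 1)) ∧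
    (∀ (n r q p M h : ℕ) (w : Fin n → ℕ) (g : Fin n → Fin r) (u : Fin q → ℕ), 1 ≤ h →
      h * (h + 1) ≤ 2 * (M + 1) → 25000 * (h + 1) ^ 3 ≤ M * (M + 1) → (∀ j, Fine w g j) →
      (∀ j, (M + 1).choose 2 ≤ conditions (group w g j) ∧
        conditions (group w g j) ≤ (M + 2).choose 2) →
      (∀ i, u i ≤ h) →
      (((M + 1).choose 2 ≤ p ∧ 96 * (M + 2).choose 2 ≤ conditions w + conditions u + p) ∨
        (3 * (h * (h + 1)) ≤ 2 * (M + 1) ∧ (M + 1) ^ 3 ≤ conditions u)) →
      StrongNagata (Fin.append (Fin.append w u) fun _ : Fin p => 1)) ∧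
    ∀ (n k q r s h M p : ℕ) (w : Fin n → ℕ) (g : Fin n → Fin k) (t : Fin k → ℕ) (u : Fin q → ℕ),
      1 ≤ s → s ≤ M → h * (h + 1) ≤ 2 * s * (M + 1) → 25000 * (h + 1) ^ 3 ≤ M * (M + 1) →
      (∀ j, Fine w g j) →
      (∀ j, 1 ≤ t j ∧ t j ≤ M ∧ (t j + 1).choose 2 ≤ conditions (group w g j) ∧
        conditions (group w g j) < (t j + 2).choose 2) → (Finset.univ.image t).card ≤ r →
      (∀ i, u i ≤ h) → (q = 0 ∨ 25000 * (h + 1) ^ 2 ≤ ∑ i, u i) →
      500000 * (2 * r + s + 2) * (M + 1) ^ 2 ≤ conditions w + conditions u →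
      StrongNagata (Fin.append (Fin.append w u) fun _ : Fin p => 1) := by
  have hone : ∀ p, conditions (fun _ : Fin p => 1) = p := by
    intro p
    unfold conditions
    simp
  have hlt : ∀ {h M : ℕ}, 25000 * (h + 1) ^ 3 ≤ M * (M + 1) → h < M := by
    intro h M hb
    by_contra hcon
    push Not at hcon
    have h1 : (M + 1) ^ 3 ≤ (h + 1) ^ 3 := Nat.pow_le_pow_left (by omega) 3
    have h2 : (M + 1) ^ 3 = M * (M + 1) + (M ^ 3 + 2 * M ^ 2 + 2 * M + 1) := by ring
    omega
  refine ⟨fun n r m s p w g hm hB hr hG hc => ?_, fun n r q p M h w g u h1 hh hb hG hc hu hK => ?_,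
    fun n k q r s h M p w g t u hs1 hs2 hh hb hG ht hr hu hS hQ => ?_⟩
  · refine strong_of (Pool.Agent.Results.MP_70e04f_ag.Composition.groups w g p hm hB hG hc) ?_
    exact_mod_cast grouped_ineq p w g hm hB hr hc
  · have hhM := hlt hb
    refine strong_of (Pool.Agent.Results.MP_70e04f_ag.Composition.fill w g u h1 hh hb hG hc hu hK)
      (Pool.Agent.W71.NN.nine_lt (K := M + 1) (by omega)
        (append_le (append_le (le_of_group fun j => (hc j).2) fun i => by
          have := hu i
          omega) fun _ => by omega) ?_)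
    change 9 * (M + 1) ^ 2 < conditions (Fin.append (Fin.append w u) fun _ : Fin p => 1)
    rw [conditions_append, conditions_append, hone]
    rcases hK with ⟨-, hK⟩ | ⟨-, hK⟩
    · have h4 := Pool.Agent.W71.NN.two_choose (M + 1)
      have h5 : (M + 1) ^ 2 ≤ (M + 1) * (M + 1 + 1) := by
        rw [sq]
        exact Nat.mul_le_mul_left _ (by omega)
      have h6 : (M + 1 + 1).choose 2 = (M + 2).choose 2 := rfl
      have h7 : 0 < (M + 1) ^ 2 := by positivity
      omega
    · have h8 : 9 < M + 1 := by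
        by_contra hcon
        have h9 : M * (M + 1) ≤ 8 * 9 := Nat.mul_le_mul (by omega) (by omega)
        have h10 : 0 < (h + 1) ^ 3 := by positivity
        omega
      have h9 : 9 * (M + 1) ^ 2 < (M + 1) ^ 3 := by
        calc 9 * (M + 1) ^ 2 < (M + 1) * (M + 1) ^ 2 :=
              Nat.mul_lt_mul_of_pos_right h8 (by positivity)
          _ = (M + 1) ^ 3 := by ring
      omega
  · have hhM := hlt hb
    refine strong_of (Pool.Agent.Results.MP_70e04f_ag.Composition.few w g t u p hs1 hs2 hh hb hG ht hr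
      hu hS hQ) (Pool.Agent.W71.NN.nine_lt (K := M + 1) (by omega)
        (append_le (append_le (le_of_group (g := g) fun j => (ht j).2.2.2.le.trans
          (Nat.choose_le_choose 2 (by have := (ht j).2.1; omega))) fun i => by
          have := hu i
          omega) fun _ => by omega) ?_)
    · change 9 * (M + 1) ^ 2 < conditions (Fin.append (Fin.append w u) fun _ : Fin p => 1)
      rw [conditions_append, conditions_append]
      have h2 : 500000 * (2 * r + s + 2) * (M + 1) ^ 2 =
          500000 * ((2 * r + s + 2) * (M + 1) ^ 2) := by ring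
      have h3 : 1 * (M + 1) ^ 2 ≤ (2 * r + s + 2) * (M + 1) ^ 2 := Nat.mul_le_mul_right _ (by omega)
      have h4 : 0 < (M + 1) ^ 2 := by positivity
      rw [h2] at hQ
      generalize (2 * r + s + 2) * (M + 1) ^ 2 = X at *
      generalize (M + 1) ^ 2 = Y at *
      omega

end Pool.Agent.Results.MP_b180eb_ag.ComposedClasses
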