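import Mathlib
import Pool.Agent.Results.MP_70e04f_ag.RandomEveryDegree

set_option autoImplicit false

/-!
# The strong Nagata conjecture for random multiplicities

General points of the complex projective plane. `StrongNagata w`: for all `n`-tuples of points outside
one hypersurface and for EVERY degree `d`, every curve (irreducible or not) of the class
`C = d L - ∑ w i E i`, that is of degree `d` with multiplicities at least `w i`, has `C ^ 2 ≥ g - 1` and
`C ^ 2 > 0`, where `g` is the arithmetic genus of the class. It holds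

* almost surely for all large `n`, if the `w i` are pairwise independent identically distributed random
  numbers of finite variance, not almost surely zero;
* for all but `(m + 1) ^ n exp (- n / 14)` of the vectors `w ∈ {0, …, m} ^ n` if `m ≥ 1` and
  `n ≥ 400000 m`.
-/

namespace Pool.Agent.Results.MP_b180eb_ag.RandomClasses

open MvPolynomial MeasureTheory ProbabilityTheory Filter

/-- Forms of degree `d` vanishing to order at least `w i` at the points `(P i 0 : P i 1 : 1)`. -/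
noncomputable def forms {n : ℕ} (P : Fin n → Fin 2 → ℂ) (d : ℕ) (w : Fin n → ℕ) :
    Submodule ℂ (MvPolynomial (Fin 3) ℂ) :=
  homogeneousSubmodule (Fin 3) ℂ d ⊓
    Submodule.restrictScalars ℂ
      (⨅ i : Fin n, (Ideal.span {X 0 - C (P i 0) * X 2, X 1 - C (P i 1) * X 2} :
        Ideal (MvPolynomial (Fin 3) ℂ)) ^ (w i))

/-- The self-intersection `d ^ 2 - ∑ w i ^ 2` of the class `(d; w)`. -/
def selfInt {n : ℕ} (d : ℕ) (w : Fin n → ℕ) : ℤ := (d : ℤ) ^ 2 - ∑ i, (w i : ℤ) ^ 2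

/-- The intersection number with the canonical class `(-3; -1, …, -1)`. -/
def canon {n : ℕ} (d : ℕ) (w : Fin n → ℕ) : ℤ := -3 * (d : ℤ) + ∑ i, (w i : ℤ)

/-- The arithmetic genus `1 + (C ^ 2 + C K) / 2` of the class `C = (d; w)`. -/
def arithGenus {n : ℕ} (d : ℕ) (w : Fin n → ℕ) : ℚ :=
  1 + ((selfInt d w : ℚ) + (canon d w : ℚ)) / 2

/-- For all `n`-tuples `P` of points outside one hypersurface, every curve `G = 0` of every degree `d`
with multiplicities at least `w i` at `P i` has a class `C = (d; w)` with `C ^ 2 ≥ g - 1`, `C ^ 2 > 0`. -/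
def StrongNagata {n : ℕ} (w : Fin n → ℕ) : Prop :=
  ∃ F : MvPolynomial (Fin n × Fin 2) ℂ, F ≠ 0 ∧
    ∀ P : Fin n → Fin 2 → ℂ, eval (fun ij : Fin n × Fin 2 => P ij.1 ij.2) F ≠ 0 →
      ∀ (d : ℕ) (G : MvPolynomial (Fin 3) ℂ), G ≠ 0 → G ∈ forms P d w →
        arithGenus d w - 1 ≤ (selfInt d w : ℚ) ∧ 0 < selfInt d w

theorem two_choose (x : ℕ) : (2 : ℤ) * ((x + 1).choose 2 : ℕ) = (x : ℤ) ^ 2 + x := by
  have h3 : (x + 1).choose 2 * 2 = (x + 1) * x := by
    rw [Nat.choose_two_right]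
    simpa using Nat.div_two_mul_two_of_even (Nat.even_mul_pred_self (x + 1))
  have h4 : (((x + 1).choose 2 : ℕ) : ℤ) * 2 = (x + 1) * x := by exact_mod_cast h3
  linarith

/-- Classes which are special in no degree. -/
theorem strong_of {n : ℕ} {w : Fin n → ℕ}
    (h : ∃ F : MvPolynomial (Fin n × Fin 2) ℂ, F ≠ 0 ∧
      ∀ P : Fin n → Fin 2 → ℂ, eval (fun ij : Fin n × Fin 2 => P ij.1 ij.2) F ≠ 0 →
        ∀ d : ℕ, (Module.finrank ℂ ↥(forms P d w) : ℤ) =
          max 0 (((d + 2).choose 2 : ℤ) - ∑ i, ((w i + 1).choose 2 : ℤ)))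
    (hw : 9 * ∑ i, (w i : ℤ) ^ 2 < (∑ i, (w i : ℤ)) ^ 2) : StrongNagata w := by
  obtain ⟨F, hF, hF'⟩ := h
  refine ⟨F, hF, fun P hP d G hG hGm => ?_⟩
  have h1 := hF' P hP d
  have hfd : FiniteDimensional ℂ ↥(forms P d w) := by
    have : FiniteDimensional ℂ ↥(MvPolynomial.homogeneousSubmodule (Fin 3) ℂ d) :=
      Module.Finite.iff_fg.2 (MvPolynomial.homogeneousSubmodule_fg _ _ d)
    exact Submodule.finiteDimensional_of_le (inf_le_left : forms P d w ≤ _)
  have hpos : 0 < Module.finrank ℂ ↥(forms P d w) := by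
    rw [Module.finrank_pos_iff_exists_ne_zero]
    exact ⟨⟨G, hGm⟩, fun h0 => hG (congrArg Subtype.val h0)⟩
  have h2 : ∑ i, ((w i + 1).choose 2 : ℤ) + 1 ≤ ((d + 2).choose 2 : ℤ) := by
    by_contra hc
    rw [max_eq_left (by linarith)] at h1
    omega
  have h3 : (2 : ℤ) * ((d + 2).choose 2 : ℕ) = (d : ℤ) ^ 2 + 3 * d + 2 := by
    have := two_choose (d + 1)
    push_cast at this ⊢
    linarith
  have h4 : 2 * ∑ i, ((w i + 1).choose 2 : ℤ) = ∑ i, (w i : ℤ) ^ 2 + ∑ i, (w i : ℤ) := by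
    rw [Finset.mul_sum, ← Finset.sum_add_distrib]
    exact Finset.sum_congr rfl fun i _ => two_choose (w i)
  have h5 : ∑ i, (w i : ℤ) ^ 2 + ∑ i, (w i : ℤ) ≤ (d : ℤ) ^ 2 + 3 * d := by
    linarith
  have hS : 0 ≤ ∑ i, (w i : ℤ) := Finset.sum_nonneg fun i _ => by positivity
  constructor
  · have h6 : canon d w ≤ selfInt d w := by
      unfold canon selfInt
      linarith
    have h7 : (canon d w : ℚ) ≤ (selfInt d w : ℚ) := by exact_mod_cast h6
    unfold arithGenus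
    linarith
  · by_contra hc
    unfold selfInt at hc
    have h6 : ∑ i, (w i : ℤ) ≤ 3 * d := by linarith
    have h7 : (∑ i, (w i : ℤ)) ^ 2 ≤ (3 * (d : ℤ)) ^ 2 := pow_le_pow_left₀ hS h6 2
    nlinarith

/-- Large multiplicity vectors. -/
theorem large {n : ℕ} {w : Fin n → ℕ} {μ : ℕ} (hμ : ∀ i, w i ≤ μ)
    (h : 25000 * (μ + 1) ^ 2 ≤ ∑ i, w i) : StrongNagata w := by
  refine strong_of (Pool.Agent.Results.MP_70e04f_ag.RandomEveryDegree.every_of hμ h) ?_
  have h1 : ∑ i, (w i : ℤ) ^ 2 ≤ μ * ∑ i, (w i : ℤ) := by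
    rw [Finset.mul_sum]
    refine Finset.sum_le_sum fun i _ => ?_
    have h2 : (w i : ℤ) ≤ μ := by exact_mod_cast hμ i
    have h3 : (0 : ℤ) ≤ w i := by positivity
    nlinarith
  have h2 : 25000 * ((μ : ℤ) + 1) ^ 2 ≤ ∑ i, (w i : ℤ) := by exact_mod_cast h
  have h3 : (0 : ℤ) ≤ μ := by positivity
  have h4 : 9 * (μ : ℤ) < ∑ i, (w i : ℤ) := by nlinarith
  have h5 : (0 : ℤ) < ∑ i, (w i : ℤ) := by linarith
  nlinarith

theorem part_iid {Ω : Type} [MeasurableSpace Ω] (Q : Measure Ω) [IsProbabilityMeasure Q]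
    (w : ℕ → Ω → ℕ) (hind : Pairwise fun i j => IndepFun (w i) (w j) Q)
    (hid : ∀ i, IdentDistrib (w i) (w 0) Q Q)
    (hint : Integrable (fun ω => (w 0 ω : ℝ) ^ 2) Q) (hne : ¬ ∀ᵐ ω ∂Q, w 0 ω = 0) :
    ∀ᵐ ω ∂Q, ∀ᶠ n : ℕ in atTop, StrongNagata fun i : Fin n => w i ω := by
  filter_upwards [Pool.Agent.H96.SR.slln_big w hind hid hint hne 25000] with ω hω
  filter_upwards [hω] with n hn
  obtain ⟨μ, h1, h2⟩ := hn
  refine large (μ := μ) (fun i => h1 i i.2) ?_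
  rw [Fin.sum_univ_eq_sum_range (fun i => w i ω) n]
  exact h2

theorem part_all {n μ : ℕ} (ν : Fin n → Measure ℕ) [∀ i, IsProbabilityMeasure (ν i)]
    (hν : ∀ i, ∀ᵐ x ∂(ν i), x ≤ μ)
    (h : 50000 * ((μ : ℝ) + 1) ^ 2 ≤ ∑ i, ∫ x, (x : ℝ) ∂(ν i)) :
    (Measure.pi ν).real {w | ¬ StrongNagata w} ≤
      Real.exp (-(∑ i, ∫ x, (x : ℝ) ∂(ν i)) / (7 * μ)) := by
  have hμ : 1 ≤ μ := by
    by_contra hc
    have hc' : μ = 0 := by omega
    subst hc'
    have h0 : ∑ i, ∫ x, (x : ℝ) ∂(ν i) = 0 := by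
      refine Finset.sum_eq_zero fun i _ => ?_
      refine integral_eq_zero_of_ae ?_
      filter_upwards [hν i] with x hx
      have : x = 0 := by omega
      simp [this]
    rw [h0] at h
    norm_num at h
  refine le_trans ?_ (Pool.Agent.H96.SR.lower_tail ν hμ hν)
  refine ENNReal.toReal_mono (measure_ne_top _ _) (measure_mono_ae ?_)
  filter_upwards [Pool.Agent.H96.SR.ae_le ν hν] with w hw hwe
  by_contra hc
  apply hwe
  refine large hw ?_
  have hc' : ∑ i, ∫ x, (x : ℝ) ∂(ν i) < 2 * ∑ i, (w i : ℝ) := not_le.1 hc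
  have h1 : 25000 * ((μ : ℝ) + 1) ^ 2 ≤ ∑ i, (w i : ℝ) := by linarith
  exact_mod_cast h1

theorem part_count (n m : ℕ) (hm : 1 ≤ m) (hn : 400000 * m ≤ n) :
    (Set.ncard {w : Fin n → ℕ | (∀ i, w i ≤ m) ∧ ¬ StrongNagata w} : ℝ) ≤
      ((m : ℝ) + 1) ^ n * Real.exp (-(n : ℝ) / 14) := by
  refine (Pool.Agent.H96.SR.count_le (n := n) (m := m) {w : Fin n → ℕ | ¬ StrongNagata w}).trans ?_
  refine mul_le_mul_of_nonneg_left ?_ (by positivity)
  have hm' : (1 : ℝ) ≤ m := by exact_mod_cast hm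
  have hn' : 400000 * (m : ℝ) ≤ n := by exact_mod_cast hn
  have h2 := part_all (n := n) (μ := m) (fun _ => Pool.Agent.H96.SR.uni m)
    (fun _ => Pool.Agent.H96.SR.uni_le m) (by
      simp only [Pool.Agent.H96.SR.uni_mean]
      rw [Finset.sum_const, Finset.card_univ, Fintype.card_fin, nsmul_eq_mul]
      nlinarith)
  refine h2.trans (le_of_eq ?_)
  simp only [Pool.Agent.H96.SR.uni_mean]
  rw [Finset.sum_const, Finset.card_univ, Fintype.card_fin, nsmul_eq_mul]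
  congr 1
  field_simp
  ring

/-- (1) random vectors; (2) counting. -/
theorem result :
    (∀ (Ω : Type) [MeasurableSpace Ω] (Q : Measure Ω) [IsProbabilityMeasure Q] (w : ℕ → Ω → ℕ),
      (Pairwise fun i j => IndepFun (w i) (w j) Q) → (∀ i, IdentDistrib (w i) (w 0) Q Q) →
      Integrable (fun ω => (w 0 ω : ℝ) ^ 2) Q → (¬ ∀ᵐ ω ∂Q, w 0 ω = 0) →
      ∀ᵐ ω ∂Q, ∀ᶠ n : ℕ in atTop, StrongNagata fun i : Fin n => w i ω) ∧
    (∀ n m : ℕ, 1 ≤ m → 400000 * m ≤ n →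
      (Set.ncard {w : Fin n → ℕ | (∀ i, w i ≤ m) ∧ ¬ StrongNagata w} : ℝ) ≤
        ((m : ℝ) + 1) ^ n * Real.exp (-(n : ℝ) / 14)) :=
  ⟨fun _ _ Q _ w h1 h2 h3 h4 => part_iid Q w h1 h2 h3 h4, part_count⟩

end Pool.Agent.Results.MP_b180eb_ag.RandomClasses
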