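import Mathlib
import Pool.Agent.Results.MP_70e04f_ag.TenGroups
import Pool.Agent.W71.NN.Pos

set_option autoImplicit false

/-!
# Strong Nagata for the classes of ten or more groups of points

General points of the complex projective plane, `(d; w) = d L - ∑ w i E i`. The points form `r ≥ 10` groups;
the number of conditions of the group `j` is between those of one point of multiplicity `μ j` and one of
multiplicity `ν j`, `m ≤ μ j ≤ ν j ≤ m + 1`, and the group alone is non-special in the degrees `μ j - 1` and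
`ν j - 1` (`Grouped`). There may be `p` further simple points.

* (1) If `r (∑ (w i)² + p) < (∑ μ j)²`, every curve `C` of class `(d; w, 1ᵖ)`, irreducible or not and of any
  degree `d`, has `C² > 0`.
* (2) The condition holds if `μ = ν` and `4 (∑ w i - ∑ μ j) > r + 4 p`.
-/

namespace Pool.Agent.Results.MP_b180eb_ag.TenGroupClasses

open MvPolynomial
open Pool.Agent.Results.MP_70e04f_ag.TenGroups (forms Expected NonSpecial conditions group lo hi Window
  Grouped)

/-- The self-intersection of the class `(d; w)`. -/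
def selfInt {n : ℕ} (d : ℕ) (w : Fin n → ℕ) : ℤ := (d : ℤ) ^ 2 - ∑ i, (w i : ℤ) ^ 2

/-- For points `P` of a nonempty open set, every curve `C` (given by a form `G`) of class `(d; w)`, of any
degree `d`, has `C² > 0`. -/
def PositiveSelfIntersection {n : ℕ} (w : Fin n → ℕ) : Prop :=
  ∃ F : MvPolynomial (Fin n × Fin 2) ℂ, F ≠ 0 ∧
    ∀ P : Fin n → Fin 2 → ℂ, eval (fun ij : Fin n × Fin 2 => P ij.1 ij.2) F ≠ 0 →
      ∀ (d : ℕ) (G : MvPolynomial (Fin 3) ℂ), G ≠ 0 → G ∈ forms P d w → 0 < selfInt d w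

theorem curve_pos {n d : ℕ} {w : Fin n → ℕ} {P : Fin n → Fin 2 → ℂ} (h : Expected P d w)
    (h9 : 9 * ∑ i, w i ^ 2 < (∑ i, w i) ^ 2) {G : MvPolynomial (Fin 3) ℂ} (hG : G ≠ 0)
    (hGm : G ∈ forms P d w) : 0 < selfInt d w := by
  have h1 : (Module.finrank ℂ ↥(forms P d w) : ℤ) =
      max 0 (((d + 2).choose 2 : ℤ) - ∑ i, ((w i + 1).choose 2 : ℤ)) := h
  have hfd : FiniteDimensional ℂ ↥(forms P d w) := by
    have : FiniteDimensional ℂ ↥(MvPolynomial.homogeneousSubmodule (Fin 3) ℂ d) :=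
      Module.Finite.iff_fg.2 (MvPolynomial.homogeneousSubmodule_fg _ _ d)
    exact Submodule.finiteDimensional_of_le (inf_le_left : forms P d w ≤ _)
  have hpos : 0 < Module.finrank ℂ ↥(forms P d w) := by
    rw [Module.finrank_pos_iff_exists_ne_zero]
    exact ⟨⟨G, hGm⟩, fun h0 => hG (congrArg Subtype.val h0)⟩
  have e : ∑ i, ((w i + 1).choose 2 : ℤ) = ((∑ i, (w i + 1).choose 2 : ℕ) : ℤ) := by
    push_cast
    rfl
  rw [e] at h1
  have h2 : ∑ i, (w i + 1).choose 2 < (d + 2).choose 2 := by omega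
  exact (Pool.Agent.W71.NN.self_pos h9 h2).2

theorem two_choose (x : ℕ) : (2 : ℤ) * ((x + 1).choose 2 : ℕ) = (x : ℤ) ^ 2 + x := by
  have h3 : (x + 1).choose 2 * 2 = (x + 1) * x := by
    rw [Nat.choose_two_right]
    simpa using Nat.div_two_mul_two_of_even (Nat.even_mul_pred_self (x + 1))
  have h4 : (((x + 1).choose 2 : ℕ) : ℤ) * 2 = (x + 1) * x := by exact_mod_cast h3
  linarith

/-- The sum over a group. -/
theorem sum_group_eq {n r : ℕ} (f : Fin n → ℤ) (g : Fin n → Fin r) :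
    ∑ j, ∑ i, (if g i = j then f i else 0) = ∑ i, f i := by
  rw [Finset.sum_comm]
  refine Finset.sum_congr rfl fun i _ => ?_
  rw [Finset.sum_ite_eq]
  simp

theorem two_conditions {n r : ℕ} (w : Fin n → ℕ) (g : Fin n → Fin r) (j : Fin r) :
    2 * ((conditions (group w g j) : ℕ) : ℤ) =
      ∑ i, (if g i = j then (w i : ℤ) ^ 2 else 0) + ∑ i, (if g i = j then (w i : ℤ) else 0) := by
  unfold conditions group
  push_cast
  rw [Finset.mul_sum, ← Finset.sum_add_distrib]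
  refine Finset.sum_congr rfl fun i _ => ?_
  by_cases hi : g i = j
  · simp only [hi, if_true]
    exact two_choose (w i)
  · simp [hi]

theorem sum_le {n r : ℕ} {w : Fin n → ℕ} {g : Fin n → Fin r} {μ : Fin r → ℕ}
    (h : ∀ j, (μ j + 1).choose 2 ≤ conditions (group w g j)) :
    (∑ j, (μ j : ℤ)) ≤ ∑ i, (w i : ℤ) := by
  rw [← sum_group_eq (fun i => (w i : ℤ)) g]
  refine Finset.sum_le_sum fun j _ => ?_
  have e1 := two_conditions w g j
  have e2 := two_choose (μ j)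
  have h1 : (((μ j + 1).choose 2 : ℕ) : ℤ) ≤ ((conditions (group w g j) : ℕ) : ℤ) := by
    exact_mod_cast h j
  have hq : ∑ i, (if g i = j then (w i : ℤ) ^ 2 else 0) ≤
      (∑ i, (if g i = j then (w i : ℤ) else 0)) ^ 2 := by
    have h3 : ∀ i ∈ (Finset.univ : Finset (Fin n)), (0 : ℤ) ≤ (if g i = j then (w i : ℤ) else 0) := by
      intro i _
      split_ifs <;> positivity
    have h4 := Finset.sum_sq_le_sq_sum_of_nonneg h3
    refine le_trans (le_of_eq ?_) h4
    refine Finset.sum_congr rfl fun i _ => ?_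
    split_ifs <;> simp
  have hS0 : 0 ≤ ∑ i, (if g i = j then (w i : ℤ) else 0) :=
    Finset.sum_nonneg fun i _ => by split_ifs <;> positivity
  by_contra hcon
  have hμ0 : (0 : ℤ) ≤ μ j := by positivity
  nlinarith

/-- Below `(∑ μ j) / √r` the degree is not in the window. -/
theorem below {r N d : ℕ} (hr : 10 ≤ r) (A : ℕ) (hA : A ≤ N) (hd : r * d ^ 2 < A ^ 2) :
    ¬ Window r N d := by
  rintro ⟨h1, -⟩
  have h2 : lo r ≤ √(r : ℝ) - 3 := min_le_left _ _
  have hr0 : (0 : ℝ) < r := by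
    have : (10 : ℝ) ≤ r := by exact_mod_cast hr
    linarith
  have hs : 0 < √(r : ℝ) := Real.sqrt_pos.2 hr0
  have hss : √(r : ℝ) * √(r : ℝ) = r := Real.mul_self_sqrt hr0.le
  have h3 : 2 * (N : ℝ) / √(r : ℝ) ≤ 2 * d := by linarith
  rw [div_le_iff₀ hs] at h3
  have h4 : (A : ℝ) ≤ N := by exact_mod_cast hA
  have h5 : (A : ℝ) ≤ d * √(r : ℝ) := by linarith
  have h6 : (A : ℝ) ^ 2 ≤ (d * √(r : ℝ)) ^ 2 := pow_le_pow_left₀ (by positivity) h5 2
  have h7 : ((d : ℝ) * √(r : ℝ)) ^ 2 = r * d ^ 2 := by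
    rw [mul_pow, sq (√(r : ℝ)), hss]
    ring
  have h8 : ((r : ℝ)) * d ^ 2 < A ^ 2 := by exact_mod_cast hd
  linarith

/-- The sum of the squares of numbers `m`, `m + 1`. -/
theorem near_sq {r m : ℕ} {μ : Fin r → ℕ} (h : ∀ j, μ j = m ∨ μ j = m + 1) :
    4 * r * ∑ j, (μ j : ℤ) ^ 2 ≤ 4 * (∑ j, (μ j : ℤ)) ^ 2 + (r : ℤ) ^ 2 := by
  have h1 : ∑ j, (μ j : ℤ) ^ 2 = (2 * m + 1) * ∑ j, (μ j : ℤ) - r * (m * (m + 1)) := by
    rw [Finset.mul_sum]
    have e : ∑ _j : Fin r, ((m : ℤ) * (m + 1)) = r * (m * (m + 1)) := by simp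
    rw [← e, ← Finset.sum_sub_distrib]
    refine Finset.sum_congr rfl fun j _ => ?_
    rcases h j with h2 | h2 <;> rw [h2] <;> push_cast <;> ring
  rw [h1]
  nlinarith [sq_nonneg (2 * ∑ j, (μ j : ℤ) - r * (2 * m + 1))]

/-- **Strong Nagata for the classes of ten or more groups of points.** -/
theorem result :
    (∀ (r n m p : ℕ) (w : Fin n → ℕ) (g : Fin n → Fin r) (μ ν : Fin r → ℕ), 10 ≤ r →
      Grouped w g m μ ν → r * (∑ i, w i ^ 2 + p) < (∑ j, μ j) ^ 2 →
      PositiveSelfIntersection (Fin.append w fun _ : Fin p => 1)) ∧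
    (∀ (r n m p : ℕ) (w : Fin n → ℕ) (g : Fin n → Fin r) (μ : Fin r → ℕ), 10 ≤ r →
      Grouped w g m μ μ → 4 * ∑ j, μ j + r + 4 * p < 4 * ∑ i, w i →
      r * (∑ i, w i ^ 2 + p) < (∑ j, μ j) ^ 2 ∧
      PositiveSelfIntersection (Fin.append w fun _ : Fin p => 1)) := by
  have main : ∀ (r n m p : ℕ) (w : Fin n → ℕ) (g : Fin n → Fin r) (μ ν : Fin r → ℕ), 10 ≤ r →
      Grouped w g m μ ν → r * (∑ i, w i ^ 2 + p) < (∑ j, μ j) ^ 2 →
      PositiveSelfIntersection (Fin.append w fun _ : Fin p => 1) := by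
    intro r n m p w g μ ν hr hG hc
    classical
    obtain ⟨A, hA⟩ : ∃ A, A = ∑ j, μ j := ⟨_, rfl⟩
    rw [← hA] at hc
    have hQ : ∑ i, (Fin.append w (fun _ : Fin p => 1)) i ^ 2 = ∑ i, w i ^ 2 + p := by
      rw [Fin.sum_univ_add]
      simp
    have hS : ∑ i, (Fin.append w (fun _ : Fin p => 1)) i = ∑ i, w i + p := by
      rw [Fin.sum_univ_add]
      simp
    have hAS : A ≤ ∑ i, w i := by
      have h1 := sum_le fun j => (hG.cond j).1
      rw [hA]
      exact_mod_cast h1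
    have h9 : 9 * ∑ i, (Fin.append w (fun _ : Fin p => 1)) i ^ 2 <
        (∑ i, (Fin.append w (fun _ : Fin p => 1)) i) ^ 2 := by
      rw [hQ, hS]
      calc 9 * (∑ i, w i ^ 2 + p) ≤ r * (∑ i, w i ^ 2 + p) := Nat.mul_le_mul_right _ (by omega)
        _ < A ^ 2 := hc
        _ ≤ (∑ i, w i + p) ^ 2 := Nat.pow_le_pow_left (by omega) 2
    have hns : ∀ d, r * d ^ 2 < A ^ 2 → NonSpecial d (Fin.append w fun _ : Fin p => 1) :=
      fun d hd => Pool.Agent.Results.MP_70e04f_ag.TenGroups.nonSpecial_of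
        (Pool.Agent.Results.MP_70e04f_ag.TenGroups.main hr hG fun N h1 _ =>
          below hr A (hA ▸ h1) hd)
    have hex : ∀ d, ∃ F : MvPolynomial (Fin (n + p) × Fin 2) ℂ, F ≠ 0 ∧
        (r * d ^ 2 < A ^ 2 → ∀ P : Fin (n + p) → Fin 2 → ℂ,
          eval (fun ij : Fin (n + p) × Fin 2 => P ij.1 ij.2) F ≠ 0 →
            Expected P d (Fin.append w fun _ : Fin p => 1)) := by
      intro d
      by_cases hd : r * d ^ 2 < A ^ 2
      · obtain ⟨F, hF, hF'⟩ := hns d hd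
        exact ⟨F, hF, fun _ => hF'⟩
      · exact ⟨1, one_ne_zero, fun h => absurd h hd⟩
    choose F hF hF' using hex
    refine ⟨∏ d ∈ Finset.range A, F d, Finset.prod_ne_zero_iff.2 fun d _ => hF d,
      fun P hP d G hG0 hGm => ?_⟩
    rcases lt_or_ge (r * d ^ 2) (A ^ 2) with hd | hd
    · have hdA : d < A := by
        by_contra hcon
        push Not at hcon
        have h1 : A ^ 2 ≤ d ^ 2 := Nat.pow_le_pow_left hcon 2
        have h2 : 1 * d ^ 2 ≤ r * d ^ 2 := Nat.mul_le_mul_right _ (by omega)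
        omega
      rw [map_prod] at hP
      have h1 := Finset.prod_ne_zero_iff.1 hP d (Finset.mem_range.2 hdA)
      exact curve_pos (hF' d hd P h1) h9 hG0 hGm
    · unfold selfInt
      have h1 : (∑ i, ((Fin.append w (fun _ : Fin p => 1) : Fin (n + p) → ℕ) i : ℤ) ^ 2) =
          ((∑ i, w i ^ 2 + p : ℕ) : ℤ) := by
        rw [← hQ]
        push_cast
        rfl
      rw [h1]
      have h2 : r * (∑ i, w i ^ 2 + p) < r * d ^ 2 := lt_of_lt_of_le hc hd
      have h3 : ∑ i, w i ^ 2 + p < d ^ 2 := Nat.lt_of_mul_lt_mul_left h2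
      have h4 : ((∑ i, w i ^ 2 + p : ℕ) : ℤ) < (d : ℤ) ^ 2 := by exact_mod_cast h3
      linarith
  refine ⟨main, fun r n m p w g μ hr hG hc => ?_⟩
  have hkey : r * (∑ i, w i ^ 2 + p) < (∑ j, μ j) ^ 2 := by
    have h1 : ∑ i, (w i : ℤ) ^ 2 + ∑ i, (w i : ℤ) = ∑ j, (μ j : ℤ) ^ 2 + ∑ j, (μ j : ℤ) := by
      rw [← sum_group_eq (fun i => (w i : ℤ) ^ 2) g, ← sum_group_eq (fun i => (w i : ℤ)) g,
        ← Finset.sum_add_distrib, ← Finset.sum_add_distrib]
      refine Finset.sum_congr rfl fun j _ => ?_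
      have e1 := two_conditions w g j
      have e2 := two_choose (μ j)
      have e3 : conditions (group w g j) = (μ j + 1).choose 2 :=
        le_antisymm (hG.cond j).2 (hG.cond j).1
      rw [e3] at e1
      linarith
    have h2 := near_sq (m := m) (μ := μ) (fun j => by have := hG.near j; omega)
    have h3 : (4 * ∑ j, (μ j : ℤ) + r + 4 * p) < 4 * ∑ i, (w i : ℤ) := by exact_mod_cast hc
    have hr' : (10 : ℤ) ≤ r := by exact_mod_cast hr
    have h4 : (r : ℤ) * (∑ i, (w i : ℤ) ^ 2 + p) < (∑ j, (μ j : ℤ)) ^ 2 := by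
      have h5 : (r : ℤ) * (4 * ∑ j, (μ j : ℤ) + r + 4 * p) < r * (4 * ∑ i, (w i : ℤ)) :=
        mul_lt_mul_of_pos_left h3 (by linarith)
      have h6 : (r : ℤ) * ∑ i, (w i : ℤ) ^ 2 =
          r * (∑ j, (μ j : ℤ) ^ 2 + ∑ j, (μ j : ℤ) - ∑ i, (w i : ℤ)) := by
        rw [← h1]
        ring
      nlinarith
    exact_mod_cast h4
  exact ⟨hkey, main r n m p w g μ μ hr hG hkey⟩

end Pool.Agent.Results.MP_b180eb_ag.TenGroupClasses
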